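import Pool.Agent.PST.StmtsK4
import Pool.Agent.Helper30_PSS.S3All

/-! Squad PST, block KEY, row MCO (helper94). -/

open scoped BigOperators

noncomputable section

namespace Pool.Agent.PST.H94

open Pool.Agent.PSS
open Pool.Agent.PSS.S0 (IsBQ)

theorem mco0 (hm : S0.MckStmt) : McoStmt := by
  intro ℓ _ F V E A B K KB _ _ _ _ _ _ _ _ _ _ _ φ α Q αB β lam x y lamB xB yB hV hp hu hr hB hrB
    hl hQ a ha
  classical
  choose n n' h1 h2 h3 using hu
  let N : E → A := fun e => if e = 1 then 1 else n e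
  let N' : E → A := fun e => if e = 1 then 1 else n' e
  have hN : ∀ e, N e * N' e = 1 ∧ N' e * N e = 1 ∧ ∀ u, N e * α u = α (φ e u) * N e := by
    intro e
    by_cases h : e = 1
    · subst h
      simp [N, N']
    · simp only [N, N', if_neg h]
      exact ⟨h1 e, h2 e, h3 e⟩
  have hinv : ∀ e : E, ∀ q ∈ Q, (φ e)⁻¹ q = q := by
    intro e q hq
    have h := hQ e q hq
    rw [MulAut.inv_apply, MulEquiv.symm_apply_eq]
    exact h.symm
  have hT : ∀ e : E, ∃! t, t ∈ ({1} : Finset E) ∧ ∀ q ∈ Q, (φ t)⁻¹ q = (φ e)⁻¹ q := by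
    intro e
    refine ⟨1, ⟨Finset.mem_singleton_self _, ?_⟩, ?_⟩
    · intro q hq
      rw [hinv e q hq, hinv 1 q hq]
    · intro t ht
      exact Finset.mem_singleton.mp ht.1
  have key := hm ℓ F V E A B K KB φ α Q αB β lam x y lamB xB yB N N' {1} (CharP.cast_eq_zero F ℓ)
    hV hp hr hB hrB hl hN hT a ha
  have e1 : N 1 = 1 := by simp [N]
  have e2 : N' 1 = 1 := by simp [N']
  rw [Finset.sum_singleton, e1, e2, one_mul, mul_one] at key
  exact key

theorem mco : McoStmt := mco0 Pool.Agent.PSS.All30.mck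

end Pool.Agent.PST.H94
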