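import Pool.Agent.PST.StmtsGV

/-! Squad PST, block GV, row SVI (helper94). -/

noncomputable section

namespace Pool.Agent.PST.GU.H94

open Pool.Agent.Helper51_AWC Pool.Agent.Helper79_WRA Pool.Agent.PP Pool.Agent.PP.KF
open Pool.Agent.PP.K9 Pool.Agent.PP.K9.H97 Pool.Agent.PP.H75 Pool.Agent.PP.T3 Pool.Agent.PP.T2
open Pool.Agent.PFD (Ei)
open Pool.Agent.PSS

theorem svi (srq : SrqStmt) (rsq : RsqStmt) : SviStmt := by
  intro L ℓ hL V V' _ _ E E' π hQ P W U h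
  have hinj : Function.Injective π.toMonoidHom := π.injective
  have hker : π.toMonoidHom.ker = ⊥ := (MonoidHom.ker_eq_bot_iff _).2 hinj
  have hbot : (⊥ : Subgroup V).map π.toMonoidHom = ⊥ := Subgroup.map_bot _
  have hU : U ⊓ π.toMonoidHom.ker = ⊥ := by
    rw [hker]
    exact inf_bot_eq _
  obtain ⟨s1, s2⟩ := srq ℓ V V' E E' π.toMonoidHom hQ U h.su hU
  refine ⟨?_, ?_, ?_, ?_, ?_, ?_, ?_, ?_, ?_⟩
  · intro a b
    obtain ⟨x, rfl⟩ := hQ.sur a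
    obtain ⟨y, rfl⟩ := hQ.sur b
    rw [← map_mul, h.ab, map_mul]
  · intro a' ha' b' hb' v' hv'
    obtain ⟨v, hv, rfl⟩ := Subgroup.mem_map.1 hv'
    obtain ⟨a, ha, ha2⟩ := hQ.lif a' ha'
    obtain ⟨b, hb, hb2⟩ := hQ.lif b' hb'
    rw [← hb2, ← ha2, ← ha2, ← hb2, h.cm a ha b hb v hv]
  · have h1 := s1 ⊥ W (by rw [hker]) h.w1
    rw [hbot] at h1
    exact h1
  · exact s2 W P (by rw [hker]; exact bot_le) h.wp
  · intro a' ha' u' hu'
    obtain ⟨u, hu, rfl⟩ := Subgroup.mem_map.1 hu'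
    obtain ⟨a, ha, ha2⟩ := hQ.lif a' ha'
    rw [← ha2]
    exact Subgroup.mem_map_of_mem _ (h.su a ha u hu)
  · intro h1
    exact h.nt ((Subgroup.map_eq_bot_iff_of_injective U hinj).1 h1)
  · rw [← Subgroup.map_inf _ _ _ hinj, h.pu, hbot]
  · rw [← Subgroup.map_sup, h.jn]
    exact Subgroup.map_top_of_surjective _ hQ.sur
  · obtain ⟨τ, -, hQ'⟩ := rsq V V' E E' π.toMonoidHom hQ U h.su hU
    exact hL.iso _ _ _ _ τ hQ' h.tm

end Pool.Agent.PST.GU.H94
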