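import Pool.Agent.PST.StmtsET1
import Pool.Agent.Helper49_PFD.UNG

/-! Squad PST, block ET, row GNS (helper94). -/

open scoped BigOperators

noncomputable section

namespace Pool.Agent.PST.ET.H94

open Pool.Agent.PFD.D2 (Cdv FibG)

section
variable {R F V S : Type} [CommRing R] [Field F] [CommGroup V] [Fintype V] [DecidableEq V]
  [CommRing S] [Algebra R S] {c : Cdv R F} {σ : V → S} {cf : V → (S →ₗ[R] R)}

theorem pw_mod (h : SVd c σ cf) (v : V) (n : ℕ) : ∃ d, σ v ^ n = σ (v ^ n) + c.π • d := by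
  induction n with
  | zero => exact ⟨0, by rw [pow_zero, pow_zero, h.one, smul_zero, add_zero]⟩
  | succ n ih =>
    obtain ⟨d, hd⟩ := ih
    obtain ⟨d', hd'⟩ := h.mul (v ^ n) v
    refine ⟨d' + d * σ v, ?_⟩
    rw [pow_succ, hd, add_mul, hd', pow_succ, smul_add, smul_mul_assoc, add_assoc]

theorem prod_mod (h : SVd c σ cf) {r : ℕ} (b : Fin r → V) (e : Fin r → ℕ) (s : Finset (Fin r)) :
    ∃ d, ∏ i ∈ s, σ (b i) ^ e i = σ (∏ i ∈ s, b i ^ e i) + c.π • d := by
  classical
  induction s using Finset.induction_on with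
  | empty => exact ⟨0, by rw [Finset.prod_empty, Finset.prod_empty, h.one, smul_zero, add_zero]⟩
  | insert a s ha ih =>
    obtain ⟨d, hd⟩ := ih
    obtain ⟨d1, hd1⟩ := pw_mod h (b a) (e a)
    obtain ⟨d2, hd2⟩ := h.mul (b a ^ e a) (∏ i ∈ s, b i ^ e i)
    refine ⟨d2 + σ (b a ^ e a) * d + d1 * (σ (∏ i ∈ s, b i ^ e i) + c.π • d), ?_⟩
    rw [Finset.prod_insert ha, Finset.prod_insert ha, hd, hd1]
    generalize σ (∏ i ∈ s, b i ^ e i) = X at *
    generalize σ (b a ^ e a) = Y at *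
    have h1 : (Y + c.π • d1) * (X + c.π • d) = Y * X + c.π • (Y * d + d1 * (X + c.π • d)) := by
      rw [add_mul, mul_add, smul_add, mul_smul_comm, smul_mul_assoc, add_assoc]
    rw [h1, hd2, add_assoc, ← smul_add, add_assoc]

end

theorem gns0 (ung : Pool.Agent.PFD.D2.UngStmt) : GnsStmt := by
  intro ℓ r _ R F V S _ _ _ _ _ _ _ c σ cf b h hb
  haveI : Module.Finite R S := by
    refine Module.Finite.of_surjective (Fintype.linearCombination R σ) ?_
    intro s
    refine ⟨fun v => cf v s, ?_⟩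
    rw [Fintype.linearCombination_apply]
    exact h.b1 s
  choose e he using hb.2
  have hm : ∀ v, ∃ d, (∏ i, σ (b i) ^ ((e v) i : ℕ)) = σ v + c.π • d := by
    intro v
    obtain ⟨d, hd⟩ := prod_mod h b (fun i => ((e v) i : ℕ)) Finset.univ
    refine ⟨d, ?_⟩
    rw [hd]
    congr 2
    exact he v
  choose d hd using hm
  let u : S →ₗ[R] S := ∑ v, (cf v).smulRight (∏ i, σ (b i) ^ ((e v) i : ℕ))
  have hu : ∀ s, u s = ∑ v, cf v s • ∏ i, σ (b i) ^ ((e v) i : ℕ) := by
    intro s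
    simp only [u, LinearMap.sum_apply, LinearMap.smulRight_apply]
  have hbij := ung R F S c u (by
    intro s
    refine ⟨∑ v, cf v s • d v, ?_⟩
    have h1 : s = ∑ v, cf v s • σ v := (h.b1 s).symm
    have h2 : u s = ∑ v, cf v s • σ v + c.π • ∑ v, cf v s • d v := by
      rw [hu, Finset.smul_sum, ← Finset.sum_add_distrib]
      refine Finset.sum_congr rfl fun v _ => ?_
      rw [hd, smul_add, smul_comm (cf v s) c.π]
    rw [h2, ← h1, add_sub_cancel_left])
  rw [eq_top_iff]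
  intro s _
  obtain ⟨t, rfl⟩ := hbij.2 s
  rw [hu]
  refine Subalgebra.sum_mem _ fun v _ => Subalgebra.smul_mem _ ?_ _
  exact Subalgebra.prod_mem _ fun i _ => Subalgebra.pow_mem _ (Algebra.subset_adjoin (Set.mem_range_self i)) _

theorem gns : GnsStmt := gns0 Pool.Agent.PFD.D2.H49.ung

end Pool.Agent.PST.ET.H94
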