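import Pool.Agent.PST.StmtsDR

/-! Row PGP of squad PST (helper94). -/

open scoped BigOperators

noncomputable section

namespace Pool.Agent.PST.H94

open Pool.Agent.PST

theorem pgp : PgpStmt := by
  intro F V E _ _ _ _ φ W Q r la χ xx t h
  refine ⟨?_, ?_, ?_, ?_, ?_, ?_⟩
  · intro u u' v
    unfold pg
    rw [← Finset.sum_add_distrib]
    refine Finset.sum_congr rfl fun l _ => ?_
    rw [h.add]
    ring
  · intro w hw v
    unfold pg
    refine Finset.sum_eq_zero fun l _ => ?_
    rw [(h.ker w).1 hw l]
    ring
  · intro e u v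
    unfold pg
    refine Finset.sum_congr rfl fun l _ => ?_
    rw [h.wt, ← h.xe l e v]
    ring
  · intro u v hv
    unfold pg
    refine Finset.sum_eq_zero fun l _ => ?_
    rw [h.qs l v hv]
    ring
  · intro u
    unfold pg
    rw [Finset.sum_comm]
    refine Finset.sum_eq_zero fun l _ => ?_
    rw [← Finset.mul_sum, h.x0, mul_zero]
  · intro u n
    unfold pg
    have h1 : ∀ v, (∑ l, t l * la l u * xx l v) * la n v =
        ∑ l, t l * la l u * (xx l v * la n v) := by
      intro v
      rw [Finset.sum_mul]
      exact Finset.sum_congr rfl fun l _ => by ring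
    rw [Finset.sum_congr rfl fun v _ => h1 v, Finset.sum_comm]
    have h2 : ∀ l, ∑ v, t l * la l u * (xx l v * la n v) =
        t l * la l u * (if l = n then 1 else 0) := by
      intro l
      rw [← Finset.mul_sum, h.xl]
    rw [Finset.sum_congr rfl fun l _ => h2 l]
    simp

end Pool.Agent.PST.H94
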